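import Pool.Agent.H37.CTL.Stmts

/-!
# Denominators of conductors: subgroups of `GL_n(q)` (upper bound) and the groups `SL_n(q)`: statements of the
rows of the board `ctn`

Row `XXX` is a theorem `xxx_thm (h1 : S_AAA) ... : S_XXX` in `Pool/Agent/H<k>/CTN/XXX.lean`, importing this
file, namespace `Pool.CND`.

Upper bound: `N_G ∣ q ^ (n - 2) lcm_(1 ≤ m < n) (q ^ m - 1)` for `G ≤ GL_n(q)`.  Lower bound for `SL_n(q)`, `n ≥ 3`: `lcm_(1 ≤ m < n) (q ^ m - 1) ∣ N_G`, from the covers: the splitting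
field over `k(t)` of `E(T) = T ^ (q ^ n) + t T ^ (q ^ (r + 1)) + κ t T ^ q + T`, `n = r + m + 1`, `m ≥ 1`, `r ≥ 0`, with conductor `1 + 1 / (q - 1) + 1 / (q ^ m - 1)`.
Its roots form an `F`-space `V` with basis `X 0` (small), `X 1, ..., X r` (order `0`), `X (r + 1), ..., X (r + m)` (poles).
-/

set_option autoImplicit false

namespace Pool.CND

open Finset Polynomial

/-- the Moore determinant -/
noncomputable def Mo {L : Type} [Field L] (q s : ℕ) (v : Fin s → L) : L :=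
  (Matrix.of fun i j : Fin s => v j ^ q ^ (i : ℕ)).det

/-- `r + 1 + j` -/
def topi (r : ℕ) {m : ℕ} (j : Fin m) : Fin (r + m + 1) := ⟨r + 1 + j.val, by omega⟩

/-- `i` for `i ≤ r` -/
def lowi {r : ℕ} (m : ℕ) (i : Fin (r + 1)) : Fin (r + m + 1) := ⟨i.val, by omega⟩

/-- the roots `X i`, `i ≤ r` -/
def lowX {L : Type} {r m : ℕ} (X : Fin (r + m + 1) → L) : Fin (r + 1) → L := fun i => X (lowi m i)

/-- the roots `X i` -/
structure NRoots (k F L : Type) [Field k] [Field F] [Field L] [Algebra F k] [Algebra k L]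
    (q r m : ℕ) (κ : k) (t : L) (X : Fin (r + m + 1) → L) : Prop where
  rel : ∀ i, X i ^ q ^ (r + m + 1) + t * X i ^ q ^ (r + 1) + algebraMap k L κ * t * X i ^ q + X i = 0
  ind : ∀ c : Fin (r + m + 1) → F, ∑ i, cst k F L (c i) * X i = 0 → c = 0
  tr : Transcendental k t

/-- the group of the cover is the subgroup `G₀` of `SL_n(F)` -/
structure NCover (k F L : Type) [Field k] [Field F] [Field L] [Algebra F k] [Algebra k L] {n : ℕ}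
    (t : L) (X : Fin n → L) (G₀ : Subgroup (Matrix.SpecialLinearGroup (Fin n) F))
    (ρ : G₀ →* (L ≃ₐ[k] L)) : Prop where
  act : ∀ (g : G₀) (i : Fin n), ρ g (X i) = ∑ j, cst k F L (g.1.1 j i) * X j
  cov : IsCover ρ t

/-- orders of the roots at `P`, over `t = ∞` -/
structure NOrd (k F L : Type) [Field k] [Field F] [Field L] [Algebra F k] [Algebra k L]
    (q r m : ℕ) (t : L) (X : Fin (r + m + 1) → L) (P : Place k L) : Prop where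
  neg : P.ord t < 0
  small : ((q : ℤ) - 1) * P.ord (X 0) = -P.ord t
  mid : ∀ c : Fin (r + m + 1) → F, (∀ i, r < i.val → c i = 0) → (∃ i, i ≠ 0 ∧ c i ≠ 0) →
    P.ord (∑ i, cst k F L (c i) * X i) = 0
  top : ∀ c : Fin (r + m + 1) → F, (∃ i, r < i.val ∧ c i ≠ 0) →
    ((q : ℤ) ^ (r + m + 1) - (q : ℤ) ^ (r + 1)) * P.ord (∑ i, cst k F L (c i) * X i) = P.ord t

/-- `x ^ (q ^ j) = ∑_(i ≤ r) α_i(x) X_i ^ (q ^ j)`, `j ≤ r`; `R(x) = ∏ (x - v)` over the span of `X_0, ..., X_r` -/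
structure NAl (k F L : Type) [Field k] [Field F] [Fintype F] [Field L] [Algebra F k] [Algebra k L]
    (q r : ℕ) (v : Fin (r + 1) → L) (α : Fin (r + 1) → L → L) (R : L → L) : Prop where
  mo : Mo q (r + 1) v ≠ 0
  add : ∀ i x y, α i (x + y) = α i x + α i y
  smul : ∀ i (c : F) x, α i (cst k F L c * x) = cst k F L c * α i x
  base : ∀ i j, α i (v j) = if i = j then 1 else 0
  sys : ∀ x (j : ℕ), j ≤ r → x ^ q ^ j = ∑ i, α i x * v i ^ q ^ j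
  art : ∀ x (i : Fin (r + 1)), α i x ^ q - α i x =
    (-1) ^ (r + i.val) * R x * (Mo q r (v ∘ i.succAbove) / Mo q (r + 1) v) ^ q
  prod : ∀ x, R x = ∏ c : Fin (r + 1) → F, (x + ∑ j, cst k F L (c j) * v j)

/-! ## The upper bound -/

/-- UB1: take flags of `V = F ^ n` and `V ^ *` stable under `W`, with trivial action on the quotients; `ν = z - 1`; `φ` in the least step of the flag of `V ^ *` with `φ ν ≠ 0`, `v` in the least step `V_j` with `φ(ν v) ≠ 0`.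
`K` = the annihilator of the span `Φ` of all `φ (w - 1)`; stable; `H` = the stabiliser in `W` of `v + K`; `χ h = φ((h - 1) v)` is additive on `H`, `χ z = φ(ν v)`.  `|W : H| ≤ |V_(j-1) + K / K| ≤ q ^ (dim Φ - 1)` (`φ ν ∈ Φ` is `0` on `V_(j-1)`), `dim Φ ≤ n - 1` -/
def S_UB1 : Prop := ∀ (p f q n : ℕ) (F : Type) [Field F]
  (W : Subgroup (Matrix.GeneralLinearGroup (Fin n) F)) (z : Matrix.GeneralLinearGroup (Fin n) F),
  p.Prime → 1 ≤ f → q = p ^ f → Nat.card F = q → 2 ≤ n → (∃ a : ℕ, Nat.card W = p ^ a) → z ∈ W →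
  z ≠ 1 → (∀ w ∈ W, w * z = z * w) →
  ∃ (H : Subgroup (Matrix.GeneralLinearGroup (Fin n) F)) (d : ℕ)
    (χ : Matrix.GeneralLinearGroup (Fin n) F → F), H ≤ W ∧ z ∈ H ∧ d ≤ f * (n - 2) ∧
    Nat.card W = p ^ d * Nat.card H ∧ (∀ x ∈ H, ∀ y ∈ H, χ (x * y) = χ x + χ y) ∧ χ z ≠ 0

/-- UB2: the minimal polynomial `μ` of `g` divides `X ^ N - 1`, `p ∤ N`, so is squarefree; an irreducible factor of `μ` of degree `n` would make `F ^ n` irreducible for `g`, but the fixed vectors of `C` are a stable subspace; an irreducible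
polynomial `≠ X` of degree `m` divides `X ^ (q ^ m - 1) - 1` -/
def S_UB2 : Prop := ∀ (p f q n : ℕ) (F : Type) [Field F]
  (C : Subgroup (Matrix.GeneralLinearGroup (Fin n) F)) (g : Matrix.GeneralLinearGroup (Fin n) F),
  p.Prime → 1 ≤ f → q = p ^ f → Nat.card F = q → (∃ a : ℕ, Nat.card C = p ^ a) → C ≠ ⊥ →
  (∀ x ∈ C, g * x * g⁻¹ ∈ C) → ¬ p ∣ orderOf g →
  g ^ (Finset.Icc 1 (n - 1)).lcm (fun m => q ^ m - 1) = 1

/-- UB3: `GDW` for `G ⧸ C`, `a = f (n - 2)`, `r` = the lcm, as in `T61`: a `p`-subgroup `W` of `G ⧸ C` is the isomorphic image of the Sylow subgroup of its preimage `W₁ × C`; `UB1` for `ι W₁` (the section `H / ker χ` is abelian); elements of order prime to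
`p` lift to such elements, `UB2` for the lift of `C` -/
def S_UB3 : Prop := ∀ (p f q n : ℕ) (k F G : Type) [Field k] [IsAlgClosed k] [CharP k p] [Field F]
  [Group G] [Finite G] (C : Subgroup G) [C.Normal] (ι : G →* Matrix.GeneralLinearGroup (Fin n) F),
  p.Prime → 1 ≤ f → q = p ^ f → Nat.card F = q → 2 ≤ n → Function.Injective ι →
  C ≤ Subgroup.center G → ¬ p ∣ Nat.card C →
  (∀ c ∈ Cond k (G ⧸ C), ∃ y : ℤ,
    ((q ^ (n - 2) * (Finset.Icc 1 (n - 1)).lcm (fun m => q ^ m - 1) : ℕ) : ℚ) * c = y) ∧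
  NG k (G ⧸ C) ∣ q ^ (n - 2) * (Finset.Icc 1 (n - 1)).lcm (fun m => q ^ m - 1)

/-! ## Group theory -/

/-- GN3: transvections generate `SL_n(F)` -/
def S_GN3 : Prop := ∀ (F : Type) [Field F] (n : ℕ)
  (G₀ : Subgroup (Matrix.SpecialLinearGroup (Fin n) F)),
  (∀ (g : Matrix.SpecialLinearGroup (Fin n) F) (v φ : Fin n → F), φ ⬝ᵥ v = 0 →
    g.1 = 1 + Matrix.vecMulVec v φ → g ∈ G₀) → G₀ = ⊤

/-- GN1: `R` = the pairs `(v, φ)`, `φ(v) = 0`, with `1 + c v φ ∈ G₀` for all `c ∈ F`; `A(v) = {φ : (v, φ) ∈ R}`, `B(φ) = {v : (v, φ) ∈ R}` are `F`-subspaces; `R` is stable under `G₀`, so all `A(v)`, `v ≠ 0`, have the same dimension `a ≥ m ≥ 2`.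
(i) `(v, φ), (w, ψ) ∈ R`, `φ(w) ≠ 0`, `ψ(v) = 0` give `(v, ψ) ∈ R` (conjugate `1 + c w ψ` by `1 + v φ`).  (ii) if `A(v)` is not `0` on `w`, then `A(w) ∩ v^⊥ ⊆ A(v)`, and `A(w)` is not `0` on `v` (else `A(w) ⊆ A(v)`, equal).
(iii) for `0 ≠ φ ∈ A(v)` all `w ∈ φ^⊥` outside `A(v)^⊥` are in `B(φ)`; `A(v)^⊥` is a proper subspace of `φ^⊥` (`a ≥ 2`), so `B(φ) = φ^⊥`.  (iv) the set `Φ` of all `φ` occurring, with `0`, is a subspace (`n ≥ 3`), `G₀`-stable, `≠ 0`; its annihilator is `0`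
by transitivity; so `R` contains all pairs with `φ(v) = 0`; `GN3` -/
def S_GN1 : Prop := ∀ (F : Type) [Field F] [Finite F] (r m : ℕ)
  (G₀ : Subgroup (Matrix.SpecialLinearGroup (Fin (r + m + 1)) F)), 2 ≤ m →
  (∀ u v : Fin (r + m + 1) → F, u ≠ 0 → v ≠ 0 → ∃ g ∈ G₀, g.1.mulVec u = v) →
  (∀ g : Matrix.SpecialLinearGroup (Fin (r + m + 1)) F,
    (∀ i j, i ≠ 0 → g.1 i j = if i = j then 1 else 0) → g.1 0 0 = 1 →
    (∀ j, j ≠ 0 → j.val ≤ r → g.1 0 j = 0) → g ∈ G₀) → G₀ = ⊤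

/-- GN2: `n = 3`: as `GN1`, `a ≥ 1`; if `a = 1`, `A(v) = F φ_v`, `φ_v(w) = 0` iff `φ_w(v) = 0`; take `φ_v(w) ≠ 0` and `u ≠ 0` with `φ_v(u) = φ_w(u) = 0`: `u, v, w` are a basis and `φ_u` is `0` on it, a contradiction -/
def S_GN2 : Prop := ∀ (F : Type) [Field F] [Finite F]
  (G₀ : Subgroup (Matrix.SpecialLinearGroup (Fin (1 + 1 + 1)) F)),
  (∀ u v : Fin (1 + 1 + 1) → F, u ≠ 0 → v ≠ 0 → ∃ g ∈ G₀, g.1.mulVec u = v) →
  (∀ g : Matrix.SpecialLinearGroup (Fin (1 + 1 + 1)) F,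
    (∀ i j, i ≠ 0 → g.1 i j = if i = j then 1 else 0) → g.1 0 0 = 1 →
    (∀ j, j ≠ 0 → j.val ≤ 1 → g.1 0 j = 0) → g ∈ G₀) → G₀ = ⊤

/-! ## The covers -/

/-- FN1: as `T32`: the Moore determinant `Δ` satisfies `Δ ^ q = ± Δ`, so `Δ ∈ k`, and the matrices have determinant `1` -/
def S_FN1 : Prop := ∀ (p : ℕ) (k F : Type) [Field k] [IsAlgClosed k] [Field F] [Algebra F k]
  (f q r m : ℕ) (κ : k), p.Prime → CharP k p → 1 ≤ f → q = p ^ f → Nat.card F = q → 1 ≤ m →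
  ∃ (L : Type) (_ : Field L) (_ : Algebra k L) (t : L) (X : Fin (r + m + 1) → L)
    (G₀ : Subgroup (Matrix.SpecialLinearGroup (Fin (r + m + 1)) F)) (ρ : G₀ →* (L ≃ₐ[k] L)),
    NRoots k F L q r m κ t X ∧ NCover k F L t X G₀ ρ

/-- FN2: as `T36`: change of basis: `X' i = ∑ h_ji X j`, `G₀' = h⁻¹ G₀ h` -/
def S_FN2 : Prop := ∀ (p : ℕ) (k F L : Type) [Field k] [Field F] [Algebra F k] [Field L]
  [Algebra k L] (f q r m : ℕ) (κ : k) (t : L) (X : Fin (r + m + 1) → L)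
  (G₀ : Subgroup (Matrix.SpecialLinearGroup (Fin (r + m + 1)) F)) (ρ : G₀ →* (L ≃ₐ[k] L))
  (h : Matrix (Fin (r + m + 1)) (Fin (r + m + 1)) F), p.Prime → CharP k p → 1 ≤ f → q = p ^ f →
  Nat.card F = q → NRoots k F L q r m κ t X → NCover k F L t X G₀ ρ → h.det ≠ 0 →
  ∃ (G₁ : Subgroup (Matrix.SpecialLinearGroup (Fin (r + m + 1)) F)) (ρ₁ : G₁ →* (L ≃ₐ[k] L)),
    NRoots k F L q r m κ t (fun i => ∑ j, cst k F L (h j i) * X j) ∧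
    NCover k F L t (fun i => ∑ j, cst k F L (h j i) * X j) G₁ ρ₁

/-- FN3: transitivity.  `x_u = ∑ u_i X i`, `ρ g x_u = x_(g u)`.  `A(T) + t B(T) = ∏_(u ≠ 0) (T - x_u)`, `A = T ^ (q ^ n - 1) + 1`, `B = T ^ (q ^ (r + 1) - 1) + κ T ^ (q - 1)`.  For an orbit `O` the product over `O` has coefficients in `k[t]` (fixed and
integral), so has the product over the complement; the product of the two has degree `1` in `t`, so one of them, `h`, is in `k[T]` and divides `A` and `B`, which have no common root; `h = 1` -/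
def S_FN3 : Prop := ∀ (p : ℕ) (k F L : Type) [Field k] [IsAlgClosed k] [Field F] [Algebra F k]
  [Field L] [Algebra k L] (f q r m : ℕ) (κ : k) (t : L) (X : Fin (r + m + 1) → L)
  (G₀ : Subgroup (Matrix.SpecialLinearGroup (Fin (r + m + 1)) F)) (ρ : G₀ →* (L ≃ₐ[k] L)),
  p.Prime → CharP k p → 1 ≤ f → q = p ^ f → Nat.card F = q → 1 ≤ m →
  NRoots k F L q r m κ t X → NCover k F L t X G₀ ρ → κ ≠ 0 →
  (∀ x : k, x ^ (q ^ (r + m + 1) - 1) = -1 → x ^ (q ^ (r + 1) - q) ≠ -κ) →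
  ∀ u v : Fin (r + m + 1) → F, u ≠ 0 → v ≠ 0 → ∃ g ∈ G₀, g.1.mulVec u = v

/-- FN4: only finitely many `κ` are excluded (for `r = 0` the value `κ = - 1`) -/
def S_FN4 : Prop := ∀ (k : Type) [Field k] [IsAlgClosed k] (q r n : ℕ), 2 ≤ q → 1 ≤ n →
  ∃ κ : k, κ ≠ 0 ∧ (r = 0 → κ ≠ -1) ∧
    ∀ x : k, x ^ (q ^ n - 1) = -1 → x ^ (q ^ (r + 1) - q) ≠ -κ

/-! ## Moore determinants -/

/-- MO1: product formula `Mo (v_0, ..., v_s) = Mo (v_0, ..., v_(s-1)) ∏_c (v_s + ∑ c_i v_i)` -/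
def S_MO1 : Prop := ∀ (p : ℕ) (k F L : Type) [Field k] [Field F] [Algebra F k] [Field L]
  [Algebra k L] (f q s : ℕ) (P : Place k L) (v : Fin s → L) (o : Fin s → ℤ), p.Prime → CharP k p →
  1 ≤ f → q = p ^ f → Nat.card F = q →
  (∀ (i : Fin s) (c : Fin s → F), c i ≠ 0 → (∀ j, i < j → c j = 0) →
    ∑ j, cst k F L (c j) * v j ≠ 0 ∧ P.ord (∑ j, cst k F L (c j) * v j) = o i) →
  Mo q s v ≠ 0 ∧ P.ord (Mo q s v) = ∑ i : Fin s, (q : ℤ) ^ (i : ℕ) * o i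

/-- MO2: Cramer's rule; `∑ (α_i ^ q - α_i) v_i ^ (q ^ j) = 0` for `1 ≤ j ≤ s` and `= R(x)` for `j = s + 1`, `R(x) = x ^ (q ^ (s + 1)) - ∑ α_i(x) v_i ^ (q ^ (s + 1))`, a monic additive polynomial in `x` of degree `q ^ (s + 1)` (the `α_i` are additive polynomials of degree `≤ q ^ s`), `0` on the span of `v` -/
def S_MO2 : Prop := ∀ (p : ℕ) (k F L : Type) [Field k] [Field F] [Fintype F] [Algebra F k]
  [Field L] [Algebra k L] (f q r : ℕ) (v : Fin (r + 1) → L), p.Prime → CharP k p → 1 ≤ f →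
  q = p ^ f → Nat.card F = q → Mo q (r + 1) v ≠ 0 → ∃ α R, NAl k F L q r v α R

/-- MO3 -/
def S_MO3 : Prop := ∀ (k L : Type) [Field k] [Field L] [Algebra k L] (P : Place k L) (q s : ℕ)
  (v w : Fin s → L) (B : ℤ), 1 ≤ q → 0 ≤ B → (∀ i, v i = 0 ∨ 0 ≤ P.ord (v i)) →
  (∀ i, w i = 0 ∨ 0 ≤ P.ord (w i)) → (∀ i, v i = w i ∨ B ≤ P.ord (v i - w i)) →
  Mo q s v = Mo q s w ∨ B ≤ P.ord (Mo q s v - Mo q s w)

/-! ## Local theory -/

/-- derivation with respect to a uniformiser, with values in Laurent series -/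
structure Dv (p : ℕ) (k L : Type) [Field k] [Field L] [Algebra k L] (P : Place k L)
    (φ : L →ₐ[k] LaurentSeries k) (D : L → LaurentSeries k) : Prop where
  ordφ : ∀ x, x ≠ 0 → (φ x).order = P.ord x
  add : ∀ x y, D (x + y) = D x + D y
  mul : ∀ x y, D (x * y) = φ x * D y + φ y * D x
  const : ∀ c : k, D (algebraMap k L c) = 0
  lo : ∀ x, x ≠ 0 → D x = 0 ∨ P.ord x - 1 ≤ (D x).order
  eq : ∀ x, x ≠ 0 → ¬ (p : ℤ) ∣ P.ord x → D x ≠ 0 ∧ (D x).order = P.ord x - 1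

/-- DV0: `LEX` for `P.pi`, `DLS` -/
def S_DV0 : Prop := ∀ (p : ℕ) (k L : Type) [Field k] [Field L] [Algebra k L] (P : Place k L),
  p.Prime → CharP k p → ∃ φ D, Dv p k L P φ D

/-- DF1: `S = ∑_(h ∈ H, h ≠ 1) b(h)`.  `f(X) = ∏_(h ∈ H) (X - h π) = ∑ c_i X ^ i`, `π = P.pi`: `f(π) = 0` gives `∑ D(c_i) π ^ i = - f'(π) D(π)`, `f'(π) = ∏_(h ≠ 1) (π - h π)` of order `S + |H| - 1`, `D(π)` of order `0`.  The fixed field is `c_0`-adically approximated by Laurent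
polynomials in `c_0`, `P.ord c_0 = |H|` (`TOT`, `residue`): `D(z)` has order `≥ P.ord z + ord D(c_0) - |H|`, with equality if `p ∤ P.ord z / |H|`; `P.ord c_i ≥ |H|`, so `ord D(c_0) = S + |H| - 1` -/
def S_DF1 : Prop := ∀ (p : ℕ) (k L G : Type) [Field k] [Field L] [Algebra k L] [Group G]
  [Fintype G] (P : Place k L) (φ : L →ₐ[k] LaurentSeries k) (D : L → LaurentSeries k)
  (ρ : G →* (L ≃ₐ[k] L)) (H : Subgroup G) (z : L) (n : ℤ), p.Prime → CharP k p →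
  Function.Injective ρ → (∀ g ∈ H, g ∈ ram P ρ 1) → Dv p k L P φ D → z ≠ 0 →
  (∀ h ∈ H, ρ h z = z) → P.ord z = n * Nat.card H →
  (D z = 0 ∨ P.ord z - 1 + sm (fun g => P.b (ρ g)) {h | h ∈ H ∧ h ≠ 1} ≤ (D z).order) ∧
  (¬ (p : ℤ) ∣ n → D z ≠ 0 ∧
    (D z).order = P.ord z - 1 + sm (fun g => P.b (ρ g)) {h | h ∈ H ∧ h ≠ 1})

/-- AD1: `S = ∑_(g ∈ W ∖ M) b(g)`.  If `H = M`: `y` is fixed by `M`, `D y = - D(g₀ + g₁)`, orders by `DF1`: `ord D y ≥ P.ord y - 1 + S(M)`, `P.ord y = - D₀ |W| / p`, `ord D g₀ = - D₀ |W| - 1 + S(W)`, `ord D g₁` larger: contradiction.  If `H ≠ M`, the index is `p`,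
there is `h` fixed by `M` with `y' = y - h` of order `- |H| D'`, `D'` prime to `p` (take it of largest order), coset sums `|H| D'` (`HBX`), `ord D y' = - |H| D' - 1 + S(H)`, `ord D h ≥ P.ord y - 1 + S(M)` is larger than `ord D g₀`, so `ord D y' = ord D g₀`; `S(M) = S(H) + (p - 1) |H| D'` -/
def S_AD1 : Prop := ∀ (p : ℕ) (k L G : Type) [Field k] [IsAlgClosed k] [Field L] [Algebra k L]
  [Group G] [Fintype G] (P : Place k L) (ρ : G →* (L ≃ₐ[k] L)) (W M H : Subgroup G)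
  (y g₀ g₁ : L) (D₀ : ℕ), p.Prime → CharP k p → Function.Injective ρ →
  (∀ g ∈ W, g ∈ ram P ρ 1) → M ≤ W → (∀ g, g ∈ H ↔ g ∈ M ∧ ρ g y = y) →
  (∀ g ∈ M, ∃ c : k, c ^ p = c ∧ ρ g y = y + algebraMap k L c) → y ^ p - y = g₀ + g₁ →
  (∀ w ∈ W, ρ w g₀ = g₀) → g₀ ≠ 0 → P.ord g₀ = -((D₀ * Nat.card W : ℕ) : ℤ) → ¬ p ∣ D₀ →
  1 ≤ D₀ → (g₁ = 0 ∨ -((D₀ * Nat.card W : ℕ) : ℤ) +
    sm (fun g => P.b (ρ g)) {g | g ∈ W ∧ g ∉ M} < P.ord g₁) →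
  (p : ℤ) * sm (fun g => P.b (ρ g)) {g | g ∈ W ∧ g ∉ M} < ((p : ℤ) - 1) * (D₀ * Nat.card W) →
  H ≠ M ∧ ∃ D' : ℤ, (Nat.card M : ℤ) * D' =
      D₀ * Nat.card W - sm (fun g => P.b (ρ g)) {g | g ∈ W ∧ g ∉ M} ∧
    ∀ g ∈ M, g ∉ H → sm (fun x => P.b (ρ x)) {x | g⁻¹ * x ∈ H} = Nat.card H * D'

/-- UMS: `c` is onto (a proper subgroup of `F ^ m` is in the kernel of some `φ ≠ 0`).  The average of `b` over `M ∖ 1` is `D` (sum over the `φ`); let `b(w) = β` be largest, `N` = the kernel of a `φ` with `φ(c w) ≠ 0`: `b(w n) ≥ b(n)`, so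
`|N| D ≥ β + ∑_(n ∈ N ∖ 1) b(n) = β + (|N| - 1) D`; so `β = D` -/
def S_UMS : Prop := ∀ (p f q m : ℕ) (F G : Type) [Field F] [CharP F p] [Group G] [Fintype G]
  (b : G → ℤ) (M : Subgroup G) (c : G → Fin m → F) (D : ℤ), p.Prime → 1 ≤ f → q = p ^ f →
  Nat.card F = q → 1 ≤ m → UM b M → (∀ g ∈ M, ∀ h ∈ M, c (g * h) = c g + c h) →
  (∀ g ∈ M, c g = 0 → g = 1) →
  (∀ φ : (Fin m → F) → ZMod p, (∀ x y, φ (x + y) = φ x + φ y) → φ ≠ 0 →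
    (∃ g ∈ M, φ (c g) ≠ 0) ∧ ∀ g ∈ M, φ (c g) ≠ 0 →
      (p : ℤ) * sm b {x | x ∈ M ∧ φ (c x) = φ (c g)} = Nat.card M * D) →
  (∀ v : Fin m → F, ∃ g ∈ M, c g = v) ∧ ∀ g ∈ M, g ≠ 1 → b g = D

/-- UM3: for `φ = Tr(∑ a_i v_i)` the element `y = ∑_(i < f) (∑_j a_j Z_j) ^ (p ^ i)` as in `UMR`, `y ^ p - y = ∑ a_i (Z_i ^ q - Z_i)`; `AD1` gives the hypothesis of `UMS`, `b = D'` on `M ∖ 1`, `|M| D' = D₀ |W| - S`.  For `g ∈ W ∖ M` with `b(g) > D'` the coset sum over `g M` is `≥ |M| D'` and `≤ S`,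
against `2 S < D₀ |W|`; so `l = D'`, `|W| U = |M| D' + S = D₀ |W|` -/
def S_UM3 : Prop := ∀ (p : ℕ) (k F L G : Type) [Field k] [IsAlgClosed k] [Field F] [Algebra F k]
  [Field L] [Algebra k L] [Group G] [Fintype G] (f q m D₀ : ℕ) (P : Place k L)
  (ρ : G →* (L ≃ₐ[k] L)) (W M : Subgroup G) (c : G → Fin m → F) (Z : Fin m → L),
  p.Prime → CharP k p → 1 ≤ f → q = p ^ f → Nat.card F = q → 1 ≤ m → Function.Injective ρ →
  (∀ g ∈ W, g ∈ ram P ρ 1) → M ≤ W → (∀ g ∈ W, ∀ x ∈ M, g * x * g⁻¹ ∈ M) →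
  (∀ g ∈ M, ∀ h ∈ M, c (g * h) = c g + c h) → (∀ g ∈ M, c g = 0 → g = 1) →
  (∀ g ∈ M, ∀ i, ρ g (Z i) = Z i + cst k F L (c g i)) → 1 ≤ D₀ → ¬ p ∣ D₀ →
  (∀ a : Fin m → F, a ≠ 0 → ∃ g₀ g₁ : L, ∑ i, cst k F L (a i) * (Z i ^ q - Z i) = g₀ + g₁ ∧
    g₀ ≠ 0 ∧ (∀ w ∈ W, ρ w g₀ = g₀) ∧ P.ord g₀ = -((D₀ * Nat.card W : ℕ) : ℤ) ∧
    (g₁ = 0 ∨ -((D₀ * Nat.card W : ℕ) : ℤ) +
      sm (fun g => P.b (ρ g)) {g | g ∈ W ∧ g ∉ M} < P.ord g₁)) →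
  (p : ℤ) * sm (fun g => P.b (ρ g)) {g | g ∈ W ∧ g ∉ M} < ((p : ℤ) - 1) * (D₀ * Nat.card W) →
  2 * sm (fun g => P.b (ρ g)) {g | g ∈ W ∧ g ∉ M} < D₀ * Nat.card W →
  (∀ v : Fin m → F, ∃ g ∈ M, c g = v) ∧ ∃ l : ℤ, IsLst (fun g => P.b (ρ g)) W l ∧
    U (fun g => P.b (ρ g)) W l = D₀

/-- HQI: the coset sum is `|N| b(g, L ^ N)` (`HER`, as in `HBX`); in the fixed field of `N`: `ord (g y - y) ≥ ord y + b` -/
def S_HQI : Prop := ∀ (p : ℕ) (k L G : Type) [Field k] [IsAlgClosed k] [Field L] [Algebra k L]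
  [Group G] [Fintype G] (P : Place k L) (ρ : G →* (L ≃ₐ[k] L)) (N I : Subgroup G) (g : G) (y : L),
  p.Prime → CharP k p → Function.Injective ρ → N ≤ I → (∀ g ∈ I, g ∈ ram P ρ 1) →
  (∀ g ∈ I, ∀ n ∈ N, g * n * g⁻¹ ∈ N) → g ∈ I → g ∉ N → (∀ n ∈ N, ρ n y = y) → y ≠ 0 →
  ρ g y ≠ y → P.ord y + sm (fun g => P.b (ρ g)) {x | g⁻¹ * x ∈ N} ≤ P.ord (ρ g y - y)

/-- SMB: for an additive `φ = Tr(∑ a_i v_i)`, not `0` on `c(W)`, with kernel `N` in `W`, and `y` as in `UM3`, `g ∈ W ∖ N`: `HQI` gives coset sum `≤ - P.ord y ≤ B / p`, so `∑_(x ∈ W ∖ N) b(x) ≤ (p - 1) B / p`.  Sum over all `a`: every `x ∈ W ∖ M` is outside `N` for `(1 - 1 / p) |F ^ ι|` of the `a`;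
`φ` is `0` on `c(W)` for `|F ^ ι| |M| / |W|` of the `a` -/
def S_SMB : Prop := ∀ (p : ℕ) (k F L G ι : Type) [Field k] [IsAlgClosed k] [Field F] [Algebra F k]
  [Field L] [Algebra k L] [Group G] [Fintype G] [Fintype ι] (f q B : ℕ) (P : Place k L)
  (ρ : G →* (L ≃ₐ[k] L)) (W M : Subgroup G) (c : G → ι → F) (Z : ι → L),
  p.Prime → CharP k p → 1 ≤ f → q = p ^ f → Nat.card F = q → Function.Injective ρ →
  (∀ g ∈ W, g ∈ ram P ρ 1) → (∀ g ∈ W, ∀ h ∈ W, c (g * h) = c g + c h) →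
  (∀ g, g ∈ M ↔ g ∈ W ∧ c g = 0) → (∀ g ∈ W, ∀ i, ρ g (Z i) = Z i + cst k F L (c g i)) →
  (∀ i, Z i ^ q - Z i = 0 ∨ -(B : ℤ) ≤ P.ord (Z i ^ q - Z i)) →
  (Nat.card W : ℤ) * sm (fun g => P.b (ρ g)) {g | g ∈ W ∧ g ∉ M} ≤
    ((Nat.card W : ℤ) - Nat.card M) * B

/-! ## The covers at infinity -/

/-- N41: `FN1`, `EXI`, `FN2`; `e = - P.ord t`, `o = P.ord x` for a root `x ≠ 0`, from `x ^ (q ^ n) + x = - t x ^ q (x ^ (q ^ (r + 1) - q) + κ)`: `o < 0` and `(q ^ n - q ^ (r + 1)) o = - e`, or `o > 0` and `(q - 1) o = e`, or `o = 0` and the residue is a root of `T ^ (q ^ r) + κ' T`, `κ' ^ q = κ`.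
The roots of positive order have dimension `≤ 1` (quotients have residue in `F`), the image of those of order `≥ 0` in `k` has dimension `≤ r`, modulo those the dimension is `≤ m` (residues of `x / x_1` are in `F_(q ^ m)`); so equality -/
def S_N41 : Prop := ∀ (p : ℕ) (k F : Type) [Field k] [IsAlgClosed k] [Field F] [Algebra F k]
  (f q r m : ℕ) (κ : k), p.Prime → CharP k p → 1 ≤ f → q = p ^ f → Nat.card F = q → 1 ≤ m →
  κ ≠ 0 → (r = 0 → κ ≠ -1) →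
  ∃ (L : Type) (_ : Field L) (_ : Algebra k L) (t : L) (X : Fin (r + m + 1) → L)
    (G₀ : Subgroup (Matrix.SpecialLinearGroup (Fin (r + m + 1)) F)) (ρ : G₀ →* (L ≃ₐ[k] L))
    (P : Place k L), NRoots k F L q r m κ t X ∧ NCover k F L t X G₀ ρ ∧ NOrd k F L q r m t X P

/-- N42: `P.ord (w x - x) > P.ord x` for `w ∈ ram P ρ 1`, `x ≠ 0` -/
def S_N42 : Prop := ∀ (p : ℕ) (k F L : Type) [Field k] [IsAlgClosed k] [Field F] [Algebra F k]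
  [Field L] [Algebra k L] (f q r m : ℕ) (κ : k) (t : L) (X : Fin (r + m + 1) → L)
  (G₀ : Subgroup (Matrix.SpecialLinearGroup (Fin (r + m + 1)) F)) (ρ : G₀ →* (L ≃ₐ[k] L))
  (P : Place k L), p.Prime → CharP k p → 1 ≤ f → q = p ^ f → Nat.card F = q → 1 ≤ m →
  NRoots k F L q r m κ t X → NCover k F L t X G₀ ρ → NOrd k F L q r m t X P →
  ∀ w : G₀, w ∈ ram P ρ 1 → w.1.1 0 0 = 1 ∧
    (∀ i j, j.val ≤ r → i ≠ 0 → w.1.1 i j = if i = j then 1 else 0) ∧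
    (∀ i j, r < i.val → w.1.1 i j = if i = j then 1 else 0)

/-- N43: `N(T) = T ^ (q ^ r) + κ' T`, `κ' ^ q = κ`: `t N(x) ^ q = - (x ^ (q ^ n) + x)`; `τ` = the residue of `x`, `N(τ) = 0`, `P.ord N(x) = P.ord N(x - τ) = P.ord (x - τ)` -/
def S_N43 : Prop := ∀ (p : ℕ) (k F L : Type) [Field k] [IsAlgClosed k] [Field F] [Algebra F k]
  [Field L] [Algebra k L] (f q r m : ℕ) (κ : k) (t : L) (X : Fin (r + m + 1) → L)
  (P : Place k L), p.Prime → CharP k p → 1 ≤ f → q = p ^ f → Nat.card F = q → 1 ≤ m → κ ≠ 0 →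
  NRoots k F L q r m κ t X → NOrd k F L q r m t X P →
  ∀ i : Fin (r + m + 1), i ≠ 0 → i.val ≤ r → ∃ τ : k, X i = algebraMap k L τ ∨
    -P.ord t ≤ (q : ℤ) * P.ord (X i - algebraMap k L τ)

/-- N44: `MO1` (orders `P.ord (X 0), 0, ..., 0`), `MO2` -/
def S_N44 : Prop := ∀ (p : ℕ) (k F L : Type) [Field k] [IsAlgClosed k] [Field F] [Fintype F]
  [Algebra F k] [Field L] [Algebra k L] (f q r m : ℕ) (κ : k) (t : L) (X : Fin (r + m + 1) → L)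
  (P : Place k L), p.Prime → CharP k p → 1 ≤ f → q = p ^ f → Nat.card F = q → 1 ≤ m →
  NRoots k F L q r m κ t X → NOrd k F L q r m t X P →
  P.ord (Mo q (r + 1) (lowX X)) = P.ord (X 0) ∧ ∃ α R, NAl k F L q r (lowX X) α R

/-- N45: `w` acts on the system `sys` (its solution is unique, `mo`): `w α_i(x) = α_i(w x)` for `i ≠ 0`, and for `i = 0` if `w` fixes `X_1, ..., X_r`; `w x - x` is in the span of `X_0, ..., X_r` -/
def S_N45 : Prop := ∀ (p : ℕ) (k F L : Type) [Field k] [IsAlgClosed k] [Field F] [Fintype F]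
  [Algebra F k] [Field L] [Algebra k L] (f q r m : ℕ) (κ : k) (t : L) (X : Fin (r + m + 1) → L)
  (G₀ : Subgroup (Matrix.SpecialLinearGroup (Fin (r + m + 1)) F)) (ρ : G₀ →* (L ≃ₐ[k] L))
  (α : Fin (r + 1) → L → L) (R : L → L) (w : G₀), p.Prime → CharP k p → 1 ≤ f → q = p ^ f →
  Nat.card F = q → 1 ≤ m → NRoots k F L q r m κ t X → NCover k F L t X G₀ ρ →
  NAl k F L q r (lowX X) α R → w.1.1 0 0 = 1 →
  (∀ i j, j.val ≤ r → i ≠ 0 → w.1.1 i j = if i = j then 1 else 0) →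
  (∀ i j, r < i.val → w.1.1 i j = if i = j then 1 else 0) →
  (∀ i : Fin (r + 1), i ≠ 0 → ∀ j : Fin m, ρ w (α i (X (topi r j))) =
    α i (X (topi r j)) + cst k F L (w.1.1 (lowi m i) (topi r j))) ∧
  ((∀ i : Fin (r + 1), i ≠ 0 → w.1.1 0 (lowi m i) = 0) → ∀ j : Fin m,
    ρ w (α 0 (X (topi r j))) = α 0 (X (topi r j)) + cst k F L (w.1.1 0 (topi r j))) ∧
  (∀ c : Fin (r + m + 1) → F, ρ w (R (∑ i, cst k F L (c i) * X i)) =
    R (∑ i, cst k F L (c i) * X i)) ∧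
  ρ w (Mo q (r + 1) (lowX X)) = Mo q (r + 1) (lowX X)

/-- N46: orders; `MO1` for `X_1, ..., X_r` (orders `0`; its residue is `δ`; `N43`, `MO3`) and for `X_0` with `r - 1` of the others -/
def S_N46 : Prop := ∀ (p : ℕ) (k F L : Type) [Field k] [IsAlgClosed k] [Field F] [Fintype F]
  [Algebra F k] [Field L] [Algebra k L] (f q r m : ℕ) (κ : k) (t : L) (X : Fin (r + m + 1) → L)
  (α : Fin (r + 1) → L → L) (R : L → L) (P : Place k L), p.Prime → CharP k p → 1 ≤ f →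
  q = p ^ f → Nat.card F = q → 1 ≤ m → κ ≠ 0 → NRoots k F L q r m κ t X →
  NOrd k F L q r m t X P → NAl k F L q r (lowX X) α R →
  (∀ c : Fin (r + m + 1) → F, (∃ i, r < i.val ∧ c i ≠ 0) →
    R (∑ i, cst k F L (c i) * X i) ≠ 0 ∧
    ((q : ℤ) ^ m - 1) * P.ord (R (∑ i, cst k F L (c i) * X i)) = P.ord t) ∧
  (∃ δ : k, δ ≠ 0 ∧ (Mo q r (lowX X ∘ (0 : Fin (r + 1)).succAbove) = algebraMap k L δ ∨
    -P.ord t ≤ (q : ℤ) * P.ord (Mo q r (lowX X ∘ (0 : Fin (r + 1)).succAbove) -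
      algebraMap k L δ))) ∧
  ∀ i : Fin (r + 1), i ≠ 0 → Mo q r (lowX X ∘ i.succAbove) ≠ 0 ∧
    P.ord (Mo q r (lowX X ∘ i.succAbove)) = P.ord (X 0)

/-- N47: the functions for `SMB`, `B = P.ord (X 0)`: `Z = (X_i - τ_i) / X_0`, `1 ≤ i ≤ r`, and `α_i(X_j)`, `1 ≤ i ≤ r < j` -/
def S_N47 : Prop := ∀ (p : ℕ) (k F L : Type) [Field k] [IsAlgClosed k] [Field F] [Fintype F]
  [Algebra F k] [Field L] [Algebra k L] (f q r m : ℕ) (κ : k) (t : L) (X : Fin (r + m + 1) → L)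
  (α : Fin (r + 1) → L → L) (R : L → L) (P : Place k L), p.Prime → CharP k p → 1 ≤ f →
  q = p ^ f → Nat.card F = q → 1 ≤ m → κ ≠ 0 → NRoots k F L q r m κ t X →
  NOrd k F L q r m t X P → NAl k F L q r (lowX X) α R →
  (∀ i : Fin (r + 1), i ≠ 0 → ∃ τ : k, ∀ Z : L,
    Z = (X (lowi m i) - algebraMap k L τ) / X 0 → Z ^ q - Z = 0 ∨ -P.ord (X 0) ≤ P.ord (Z ^ q - Z)) ∧
  ∀ i : Fin (r + 1), i ≠ 0 → ∀ j : Fin m, ∀ Z : L, Z = α i (X (topi r j)) →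
    Z ^ q - Z = 0 ∨ -P.ord (X 0) ≤ P.ord (Z ^ q - Z)

/-- N48: `g₀ = ± R(u) (δ / Mo) ^ q`, `g₁ = ± R(u) (Mo(X_1, ..., X_r) - δ) ^ q / Mo ^ q`; `(q ^ m - 1) P.ord R(u) = P.ord t`, `P.ord Mo = P.ord (X 0)` -/
def S_N48 : Prop := ∀ (p : ℕ) (k F L : Type) [Field k] [IsAlgClosed k] [Field F] [Fintype F]
  [Algebra F k] [Field L] [Algebra k L] (f q r m : ℕ) (κ : k) (t : L) (X : Fin (r + m + 1) → L)
  (G₀ : Subgroup (Matrix.SpecialLinearGroup (Fin (r + m + 1)) F)) (ρ : G₀ →* (L ≃ₐ[k] L))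
  (α : Fin (r + 1) → L → L) (R : L → L) (P : Place k L), p.Prime → CharP k p → 1 ≤ f →
  q = p ^ f → Nat.card F = q → 1 ≤ m → κ ≠ 0 → NRoots k F L q r m κ t X →
  NCover k F L t X G₀ ρ → NOrd k F L q r m t X P → NAl k F L q r (lowX X) α R →
  ∀ a : Fin m → F, a ≠ 0 → ∃ g₀ g₁ : L,
    ∑ i, cst k F L (a i) * (α 0 (X (topi r i)) ^ q - α 0 (X (topi r i))) = g₀ + g₁ ∧ g₀ ≠ 0 ∧
    (∀ w : G₀, w ∈ ram P ρ 1 → ρ w g₀ = g₀) ∧
    P.ord g₀ = P.ord (R (∑ i, cst k F L (a i) * X (topi r i))) - q * P.ord (X 0) ∧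
    ((q : ℤ) ^ m - 1) * P.ord (R (∑ i, cst k F L (a i) * X (topi r i))) = P.ord t ∧
    (∀ w : G₀, w ∈ ram P ρ 1 → ρ w (R (∑ i, cst k F L (a i) * X (topi r i))) =
      R (∑ i, cst k F L (a i) * X (topi r i))) ∧
    (g₁ = 0 ∨ P.ord g₀ - P.ord t ≤ P.ord g₁)

/-- N49: `W = ram 1`, `M` = the `w ∈ W` with `w_0i = 0`, `w_ij = 0` for `1 ≤ i ≤ r < j`.  `SMB` with the functions of `N47` (`w (X_i - τ_i) = ... + w_0i X_0`, `N45`), `B = P.ord (X 0)`: `S < P.ord (X 0)`.  `INF`: `- P.ord t = |I|`; `TOT`: `P.ord (X 0) = A |W|`, `P.ord R(u) = - B' |W|` (fixed by `W`);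
`|I / W| = (q - 1) A = (q ^ m - 1) B'` is prime to `p`; `UM3` with `D₀ = q A + B'`, `Z_i = α_0(X_(r+1+i))`, `g₀`, `g₁` of `N48`; `CNV` -/
def S_N49 : Prop := ∀ (p : ℕ) (k F L : Type) [Field k] [IsAlgClosed k] [Field F] [Algebra F k]
  [Field L] [Algebra k L] (f q r m : ℕ) (κ : k) (t : L) (X : Fin (r + m + 1) → L)
  (G₀ : Subgroup (Matrix.SpecialLinearGroup (Fin (r + m + 1)) F)) (ρ : G₀ →* (L ≃ₐ[k] L))
  (P : Place k L), p.Prime → CharP k p → 1 ≤ f → q = p ^ f → Nat.card F = q → 1 ≤ m → κ ≠ 0 →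
  NRoots k F L q r m κ t X → NCover k F L t X G₀ ρ → NOrd k F L q r m t X P →
  (∀ g : Matrix.SpecialLinearGroup (Fin (r + m + 1)) F,
    (∀ i j, i ≠ 0 → g.1 i j = if i = j then 1 else 0) → g.1 0 0 = 1 →
    (∀ j, j ≠ 0 → j.val ≤ r → g.1 0 j = 0) → g ∈ G₀) ∧
  IsConductor P ρ (1 + 1 / ((q : ℚ) - 1) + 1 / ((q : ℚ) ^ m - 1))

/-! ## Conclusion -/

/-- NC1: `FN4`, `N41`, `N49`, `FN3`, `GN1` or `GN2`: `G₀ = ⊤` -/
def S_NC1 : Prop := ∀ (p : ℕ) (k F : Type) [Field k] [IsAlgClosed k] [Field F] [Algebra F k]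
  (f q r m : ℕ), p.Prime → CharP k p → 1 ≤ f → q = p ^ f → Nat.card F = q →
  (2 ≤ m ∨ (r = 1 ∧ m = 1)) → 1 + 1 / ((q : ℚ) - 1) + 1 / ((q : ℚ) ^ m - 1) ∈
    Cond k (Matrix.SpecialLinearGroup (Fin (r + m + 1)) F)

/-- AR1: the denominator of `1 / (q - 1) + 1 / (q ^ m - 1)` is `(q ^ m - 1) / gcd (m + 1, q - 1)`, and for a prime `ℓ ∣ gcd (m + 1, q - 1)` the `ℓ`-parts of `q ^ m - 1` and `q - 1` are equal; `q - 1 ∣ N` from `m = 2` (primes `≠ 3`) and `m = 3`, or for `n = 3` `m = 1` (prime `3`) -/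
def S_AR1 : Prop := ∀ (q n N : ℕ), 2 ≤ q → 3 ≤ n →
  (∀ m : ℕ, 1 ≤ m → m < n → (2 ≤ m ∨ n = 3) →
    ∃ z : ℤ, (N : ℚ) * (1 / ((q : ℚ) - 1) + 1 / ((q : ℚ) ^ m - 1)) = z) →
  (Finset.Icc 1 (n - 1)).lcm (fun m => q ^ m - 1) ∣ N

/-- NLB: `NC1`, `ALL`, `AR1` (`F` embeds in `k`) -/
def S_NLB : Prop := ∀ (p : ℕ) (k F : Type) [Field k] [IsAlgClosed k] [Field F] (f q n : ℕ),
  p.Prime → CharP k p → 1 ≤ f → q = p ^ f → Nat.card F = q → 3 ≤ n →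
  (Finset.Icc 1 (n - 1)).lcm (fun m => q ^ m - 1) ∣ NG k (Matrix.SpecialLinearGroup (Fin n) F)

/-- NFN: `NLB`, `NQD`, `UB3` -/
def S_NFN : Prop := ∀ (p : ℕ) (k F : Type) [Field k] [IsAlgClosed k] [Field F] (f q n : ℕ),
  p.Prime → CharP k p → 1 ≤ f → q = p ^ f → Nat.card F = q → 3 ≤ n →
  ∀ (C : Subgroup (Matrix.SpecialLinearGroup (Fin n) F)) [C.Normal],
  C ≤ Subgroup.center (Matrix.SpecialLinearGroup (Fin n) F) → ∃ s : ℕ, s ≤ f * (n - 2) ∧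
  NG k (Matrix.SpecialLinearGroup (Fin n) F ⧸ C) =
    p ^ s * (Finset.Icc 1 (n - 1)).lcm (fun m => q ^ m - 1)

/-! ## Products -/

/-- `RankOne`, or `p` odd and a quotient of `SL_3(q)` by a central subgroup, `r = q (q ^ 2 - 1)` -/
def LieQ (p : ℕ) (G : Type) [Group G] (r : ℕ) : Prop :=
  RankOne p G r ∨ (p ≠ 2 ∧ ∃ (F : Type) (_ : Field F) (f q : ℕ)
    (C : Subgroup (Matrix.SpecialLinearGroup (Fin 3) F)) (_ : C.Normal), 1 ≤ f ∧ q = p ^ f ∧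
    Nat.card F = q ∧ C ≤ Subgroup.center _ ∧
    Nonempty (G ≃* Matrix.SpecialLinearGroup (Fin 3) F ⧸ C) ∧ r = q * (q ^ 2 - 1))

/-- HC4: `T43`, `QU1` -/
def S_HC4 : Prop := ∀ (p : ℕ) (k F : Type) [Field k] [IsAlgClosed k] [Field F] (f q : ℕ),
  p.Prime → CharP k p → 1 ≤ f → q = p ^ f → Nat.card F = q →
  ∀ (C : Subgroup (Matrix.SpecialLinearGroup (Fin 3) F)) [C.Normal],
  HasCover k (Matrix.SpecialLinearGroup (Fin 3) F ⧸ C)

/-- RKX: as `RKP` (`Pool/Agent/H46/CNJ/RKP.lean`), with `HC4` and `T62` -/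
def S_RKX : Prop := ∀ (p n : ℕ) (k : Type) [Field k] [IsAlgClosed k] [CharP k p]
  (G : Fin n → Type) [∀ i, Group (G i)] (r : Fin n → ℕ), p.Prime →
  (∀ i, LieQ p (G i) (r i)) → NG k (∀ i, G i) = (Finset.univ : Finset (Fin n)).lcm r

end Pool.CND
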