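import Pool.Agent.H37.CTN.Stmts

/-!
# Board `ctn`, second file: direct products of groups of Lie type

Row `XXX` is a theorem `xxx_thm (h1 : S_AAA) ... : S_XXX` in `Pool/Agent/H<k>/CTN/XXX.lean`, importing this
file, namespace `Pool.CND`.
-/

set_option autoImplicit false

namespace Pool.CND

/-- `G` is isomorphic to a quotient of `SL_n(q)`, `n ≥ 2`, or `SU_3(q)` by a central subgroup, or (`p = 2`) to a Suzuki group, with the values `r`, `lo`, `hi` as given -/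
def LieT (p : ℕ) (G : Type) [Group G] (r lo hi : ℕ) : Prop :=
  (∃ (F : Type) (_ : Field F) (f q n : ℕ) (C : Subgroup (Matrix.SpecialLinearGroup (Fin n) F))
    (_ : C.Normal), 1 ≤ f ∧ q = p ^ f ∧ Nat.card F = q ∧ C ≤ Subgroup.center _ ∧
    Nonempty (G ≃* Matrix.SpecialLinearGroup (Fin n) F ⧸ C) ∧
    ((n = 2 ∧ r = (q - 1) / Nat.gcd 2 (q - 1) ∧ lo = 0 ∧ hi = 0) ∨
      (n = 3 ∧ p ≠ 2 ∧ r = q ^ 2 - 1 ∧ lo = f ∧ hi = f) ∨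
      (3 ≤ n ∧ r = (Finset.Icc 1 (n - 1)).lcm (fun m => q ^ m - 1) ∧ lo = 0 ∧ hi = f * (n - 2)))) ∨
  (∃ (F : Type) (_ : Field F) (f q : ℕ) (σ : F →+* F) (C : Subgroup (SU3 σ)) (_ : C.Normal),
    1 ≤ f ∧ q = p ^ f ∧ Nat.card F = q ^ 2 ∧ (∀ a, σ a = a ^ q) ∧ C ≤ Subgroup.center _ ∧
    Nonempty (G ≃* SU3 σ ⧸ C) ∧ r = q - 1 ∧ lo = f ∧ hi = f) ∨
  (p = 2 ∧ ∃ (F : Type) (_ : Field F) (_ : CharP F 2) (n q : ℕ) (φ : F →+* F), 1 ≤ n ∧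
    q = 2 ^ (2 * n + 1) ∧ Nat.card F = q ∧ (∀ a, φ a = a ^ 2 ^ (n + 1)) ∧
    Nonempty (G ≃* Sz φ) ∧ r = q - 1 ∧ lo = n ∧ hi = n)

/-- HC5: `NC1` (`r = n - 3`, `m = 2`; `F` embeds in `k`), `QU1` -/
def S_HC5 : Prop := ∀ (p : ℕ) (k F : Type) [Field k] [IsAlgClosed k] [Field F] (f q n : ℕ),
  p.Prime → CharP k p → 1 ≤ f → q = p ^ f → Nat.card F = q → 3 ≤ n →
  ∀ (C : Subgroup (Matrix.SpecialLinearGroup (Fin n) F)) [C.Normal],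
  HasCover k (Matrix.SpecialLinearGroup (Fin n) F ⧸ C)

/-- LTF: `PRF`; each `NG k (G i) = p ^ s_i r_i`, `lo i ≤ s_i ≤ hi i`, `p ∤ r_i`: `NFN`, `T62` (`n = 3`, `p` odd), and `RKP` for one factor (`Fin 1`) or its parts (`SLR`, `PSR`, `VSU`, `VPU` and `rkp_between` in `Pool/Agent/H46/CNJ/RKP.lean`) -/
def S_LTF : Prop := ∀ (p n : ℕ) (k : Type) [Field k] [IsAlgClosed k] [CharP k p]
  (G : Fin n → Type) [∀ i, Group (G i)] (r lo hi : Fin n → ℕ), p.Prime →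
  (∀ i, LieT p (G i) (r i) (lo i) (hi i)) → ∃ s : ℕ,
  NG k (∀ i, G i) = p ^ s * (Finset.univ : Finset (Fin n)).lcm r ∧
  (∀ i, lo i ≤ s) ∧ (s = 0 ∨ ∃ i, s ≤ hi i)

end Pool.CND
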